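import Pool.Agent.Helper81.Hodge.Defs

/-!
# Polyvector fields acting on the cohomology of a smooth projective variety
-/

set_option autoImplicit false

namespace Pool.Agent.Hodge81

open Complex

/-- The action of the cohomology of polyvector fields on `A = H^*(X, ℂ)`: `T a b` is the image of
`H^a(X, Λ^b T_X)` in `End A`, acting by contraction. -/
structure PolyvectorAction {n : ℕ} {A : Type*} [Ring A] [Algebra ℂ A] (X : HodgeRing n A) where
  /-- `T a b` is the image of `H^a(X, Λ^b T_X)` -/
  T : ℕ → ℕ → Submodule ℂ (Module.End ℂ A)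
  /-- `H^a(X, O_X) = H^{0,a}(X)` acts by multiplication -/
  functions : ∀ a f, f ∈ T a 0 ↔ ∃ x ∈ X.H 0 a, f = LinearMap.mulLeft ℂ x
  /-- contraction with a class in `H^a(X, Λ^b T_X)` has bidegree `(-b, a)` -/
  degree : ∀ a b p q f v, f ∈ T a b → v ∈ X.H (p + b) q → f v ∈ X.H p (q + a)
  vanish : ∀ a b p q f v, f ∈ T a b → p < b → v ∈ X.H p q → f v = 0
  /-- contractions compose to contractions -/
  mul_mem : ∀ a b c d f g, f ∈ T a b → g ∈ T c d → f * g ∈ T (a + c) (b + d)
  /-- and commute in the graded sense -/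
  comm : ∀ a b c d f g, f ∈ T a b → g ∈ T c d → f * g = (-1 : ℂ) ^ ((a + b) * (c + d)) • (g * f)
  /-- the commutator with the cup product by `z` in `H^{1,1}` is the contraction with the
  contraction of `f` and `z` -/
  contract : ∀ a b f z, f ∈ T a (b + 1) → z ∈ X.H 1 1 →
    f * LinearMap.mulLeft ℂ z - LinearMap.mulLeft ℂ z * f ∈ T (a + 1) b
  /-- contractions are (graded) self-adjoint up to sign -/
  adjoint : ∀ a b p q f v w, f ∈ T a b → v ∈ X.H p q →
    X.int (f v * w) = (-1 : ℂ) ^ ((a + b) * (p + q) + b) * X.int (v * f w)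

namespace PolyvectorAction

variable {n : ℕ} {A : Type*} [Ring A] [Algebra ℂ A] {X : HodgeRing n A} (P : PolyvectorAction X)

/-- the image of `⨁_{a+b=k} H^a(X, Λ^b T_X)`, the Hochschild cohomology in degree `k` -/
def total (k : ℕ) : Submodule ℂ (Module.End ℂ A) :=
  ⨆ (x : ℕ × ℕ) (_ : x.1 + x.2 = k), P.T x.1 x.2

end PolyvectorAction

/-- `phi` commutes with complex conjugation and intertwines the actions of Hochschild
cohomology, degree by degree -/
structure IsHochschildIso {n : ℕ} {A B : Type*} [Ring A] [Algebra ℂ A] [Ring B] [Algebra ℂ B]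
    {X : HodgeRing n A} {Y : HodgeRing n B} (P : PolyvectorAction X) (Q : PolyvectorAction Y)
    (phi : A ≃ₗ[ℂ] B) : Prop where
  conj : ∀ a, phi (X.conj a) = Y.conj (phi a)
  total : ∀ k f, f ∈ P.total k ↔ phi.toLinearMap ∘ₗ f ∘ₗ phi.symm.toLinearMap ∈ Q.total k

end Pool.Agent.Hodge81
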