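import Pool.Agent.Helper28.HT.Basic
import Pool.Agent.Helper28.HT.Defs

/-!
# Polyvector fields: exponentials, adjoints, evaluation
-/

set_option autoImplicit false

namespace Pool.Agent.Hodge81

open Complex Module

namespace HodgeRing

variable {n : ℕ} {A : Type*} [Ring A] [Algebra ℂ A] (X : HodgeRing n A)

/-- the complex conjugate of an endomorphism -/
noncomputable def bar (f : Module.End ℂ A) : Module.End ℂ A where
  toFun v := X.conj (f (X.conj v))
  map_add' v w := by rw [map_add, map_add, map_add]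
  map_smul' z v := by
    rw [X.conj_smul, map_smul, X.conj_smul, Complex.conj_conj, RingHom.id_apply]

theorem bar_apply (f : Module.End ℂ A) (v : A) : X.bar f v = X.conj (f (X.conj v)) := rfl

theorem bar_add (f g : Module.End ℂ A) : X.bar (f + g) = X.bar f + X.bar g := by
  ext v
  simp [bar_apply]

theorem bar_zero : X.bar 0 = 0 := by
  ext v
  simp [bar_apply]

theorem conj_low {d : ℤ} {v : A} (hv : v ∈ X.low d) : X.conj v ∈ X.low d := by
  refine X.low_induct (P := fun v => X.conj v ∈ X.low d) (fun p q hpq v hv => ?_)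
    (by rw [map_zero]; exact zero_mem _)
    (fun a b ha hb => by rw [map_add]; exact add_mem ha hb) hv
  exact X.mem_low (by omega) (X.conj_mem _ _ _ hv)

theorem conj_column {i : ℤ} {v : A} (hv : v ∈ X.column i) : X.conj v ∈ X.column (-i) := by
  refine X.column_induct (P := fun v => X.conj v ∈ X.column (-i)) (fun p q hpq v hv => ?_)
    (by rw [map_zero]; exact zero_mem _)
    (fun a b ha hb => by rw [map_add]; exact add_mem ha hb) hv
  exact X.mem_column (by omega) (X.conj_mem _ _ _ hv)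

theorem conj_eq_zero {v : A} (h : X.conj v = 0) : v = 0 := by
  rw [← X.conj_conj v, h, map_zero]

theorem expo_mul_eq_zero {z : ℂ} {v : A} (h : X.expo z * v = 0) : v = 0 := by
  rw [← X.expo_neg_mul z v, h, mul_zero]

theorem mul_expo_eq_zero {z : ℂ} {v : A} (h : v * X.expo z = 0) : v = 0 := by
  rw [X.expo_central] at h
  exact X.expo_mul_eq_zero h

theorem column_eq_bot {i : ℤ} (h : i < -(n : ℤ)) : X.column i = ⊥ := by
  unfold column
  refine iSup₂_eq_bot.2 fun x hx => X.bounded _ _ (Or.inr ?_)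
  omega

/-- an operator whose commutator with `omega` is known, on powers of `omega` -/
theorem pow_two_step {g h l : A →ₗ[ℂ] A} (hg : ∀ v, g (X.omega * v) = X.omega * g v + h v)
    (hh : ∀ v, h (X.omega * v) = X.omega * h v + l v) (hl : ∀ v, l (X.omega * v) = X.omega * l v)
    (j : ℕ) (v : A) :
    l (X.omega ^ j * v) = X.omega ^ j * l v ∧
    h (X.omega ^ j * v) = X.omega ^ j * h v + (j : ℂ) • (X.omega ^ (j - 1) * l v) ∧
    g (X.omega ^ j * v) = X.omega ^ j * g v + (j : ℂ) • (X.omega ^ (j - 1) * h v) +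
      ((j.choose 2 : ℕ) : ℂ) • (X.omega ^ (j - 2) * l v) := by
  induction j with
  | zero => simp
  | succ j ih =>
    obtain ⟨i1, i2, i3⟩ := ih
    have e0 : X.omega ^ (j + 1) * v = X.omega * (X.omega ^ j * v) := by
      rw [pow_succ', mul_assoc]
    have e1 : ∀ a : A, (j : ℂ) • (X.omega * (X.omega ^ (j - 1) * a)) =
        (j : ℂ) • (X.omega ^ j * a) := by
      intro a
      rcases Nat.eq_zero_or_pos j with rfl | hj
      · simp
      · rw [← mul_assoc, ← pow_succ', Nat.sub_add_cancel hj]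
    have e2 : ∀ a : A, ((j.choose 2 : ℕ) : ℂ) • (X.omega * (X.omega ^ (j - 2) * a)) =
        ((j.choose 2 : ℕ) : ℂ) • (X.omega ^ (j - 1) * a) := by
      intro a
      rcases Nat.lt_or_ge j 2 with hj | hj
      · rw [Nat.choose_eq_zero_of_lt hj]
        simp
      · rw [← mul_assoc, ← pow_succ', show j - 2 + 1 = j - 1 by omega]
    refine ⟨?_, ?_, ?_⟩
    · rw [e0, hl, i1, pow_succ', mul_assoc]
    · rw [e0, hh, i2, i1, mul_add, mul_smul_comm, e1, Nat.add_sub_cancel, pow_succ' X.omega j,
        mul_assoc]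
      push_cast
      rw [add_smul, one_smul]
      abel
    · rw [e0, hg, i3, i2, mul_add, mul_add, mul_smul_comm, mul_smul_comm, e1, e2,
        Nat.add_sub_cancel, pow_succ' X.omega j, mul_assoc,
        show j + 1 - 2 = j - 1 by omega, Nat.choose_succ_succ' j 1, Nat.choose_one_right]
      push_cast
      rw [add_smul, one_smul, add_smul]
      abel

theorem expo_two_step {g h l : A →ₗ[ℂ] A} (hg : ∀ v, g (X.omega * v) = X.omega * g v + h v)
    (hh : ∀ v, h (X.omega * v) = X.omega * h v + l v) (hl : ∀ v, l (X.omega * v) = X.omega * l v)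
    (z : ℂ) (v : A) :
    g (X.expo z * v) = X.expo z * (g v + z • h v + (z ^ 2 / 2) • l v) := by
  have hgj := fun j => (X.pow_two_step hg hh hl j v).2.2
  have s1 : ∑ j ∈ Finset.range (n + 3),
      (z ^ j * ((j.factorial : ℕ) : ℂ)⁻¹) • ((j : ℂ) • (X.omega ^ (j - 1) * h v)) =
      X.expo z * (z • h v) := by
    rw [Finset.sum_range_succ', X.expo_eq (N := n + 2) (by omega), Finset.sum_mul]
    simp only [Nat.cast_zero, zero_smul, smul_zero, add_zero]
    refine Finset.sum_congr rfl fun j _ => ?_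
    rw [Nat.add_sub_cancel, mul_smul_comm, smul_mul_assoc, smul_smul, smul_smul]
    congr 1
    rw [Nat.factorial_succ]
    have h1 : ((j + 1 : ℕ) : ℂ) ≠ 0 := Nat.cast_ne_zero.2 (Nat.succ_ne_zero j)
    have h2 : ((j.factorial : ℕ) : ℂ) ≠ 0 := Nat.cast_ne_zero.2 (Nat.factorial_ne_zero j)
    push_cast at h1 ⊢
    field_simp
    ring
  have s2 : ∑ j ∈ Finset.range (n + 3),
      (z ^ j * ((j.factorial : ℕ) : ℂ)⁻¹) • (((j.choose 2 : ℕ) : ℂ) • (X.omega ^ (j - 2) * l v)) =
      X.expo z * ((z ^ 2 / 2) • l v) := by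
    rw [Finset.sum_range_succ', Finset.sum_range_succ', X.expo_eq (N := n + 1) (by omega),
      Finset.sum_mul]
    simp only [Nat.zero_add, Nat.choose_succ_self, Nat.choose_zero_succ, Nat.cast_zero, zero_smul,
      smul_zero, add_zero]
    refine Finset.sum_congr rfl fun j _ => ?_
    rw [show j + 1 + 1 - 2 = j by omega, mul_smul_comm, smul_mul_assoc, smul_smul, smul_smul]
    congr 1
    have h1 : ((j + 1 : ℕ) : ℂ) ≠ 0 := Nat.cast_ne_zero.2 (Nat.succ_ne_zero j)
    have h3 : ((j + 2 : ℕ) : ℂ) ≠ 0 := Nat.cast_ne_zero.2 (Nat.succ_ne_zero (j + 1))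
    have h2 : ((j.factorial : ℕ) : ℂ) ≠ 0 := Nat.cast_ne_zero.2 (Nat.factorial_ne_zero j)
    have h4 : (((j + 1 + 1).choose 2 : ℕ) : ℂ) = (j + 1) * (j + 2) / 2 := by
      rw [Nat.cast_choose_two]
      push_cast
      ring
    rw [h4, Nat.factorial_succ, Nat.factorial_succ]
    push_cast at h1 h3 ⊢
    have h5 : (j : ℂ) + 1 + 1 ≠ 0 := by
      rw [show (j : ℂ) + 1 + 1 = j + 2 by ring]
      exact h3
    field_simp
    ring
  have s0 : ∑ j ∈ Finset.range (n + 3),
      (z ^ j * ((j.factorial : ℕ) : ℂ)⁻¹) • (X.omega ^ j * g v) = X.expo z * g v := by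
    rw [X.expo_eq (N := n + 3) (by omega), Finset.sum_mul]
    refine Finset.sum_congr rfl fun j _ => ?_
    rw [smul_mul_assoc]
  rw [mul_add, mul_add, ← s0, ← s1, ← s2, ← Finset.sum_add_distrib, ← Finset.sum_add_distrib,
    X.expo_eq (N := n + 3) (by omega), Finset.sum_mul, map_sum]
  refine Finset.sum_congr rfl fun j _ => ?_
  rw [smul_mul_assoc, map_smul, hgj, smul_add, smul_add]

end HodgeRing

end Pool.Agent.Hodge81
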