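import Pool.Agent.Helper81.HodgeF.Chern

/-!
# The sesquilinear form and the exponentials of a Kaehler class
-/

set_option autoImplicit false

namespace Pool.Agent.Hodge81

open Complex Module

namespace HodgeRing

variable {n : ℕ} {A : Type*} [Ring A] [Algebra ℂ A] (X : HodgeRing n A)

/-- the sesquilinear form `∫ v^∨ conj w` -/
noncomputable def sesq (v w : A) : ℂ := X.int (X.dual v * X.conj w)

theorem sesq_add_left (v v' w : A) : X.sesq (v + v') w = X.sesq v w + X.sesq v' w := by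
  simp [sesq, add_mul]

theorem sesq_add_right (v w w' : A) : X.sesq v (w + w') = X.sesq v w + X.sesq v w' := by
  simp [sesq, mul_add]

theorem sesq_neg_left (v w : A) : X.sesq (-v) w = -X.sesq v w := by
  simp [sesq]

theorem sesq_neg_right (v w : A) : X.sesq v (-w) = -X.sesq v w := by
  simp [sesq]

theorem sesq_smul_left (z : ℂ) (v w : A) : X.sesq (z • v) w = z * X.sesq v w := by
  simp [sesq]

theorem sesq_smul_right (z : ℂ) (v w : A) :
    X.sesq v (z • w) = (starRingEnd ℂ) z * X.sesq v w := by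
  simp [sesq, X.conj_smul]

theorem sesq_zero_left (w : A) : X.sesq 0 w = 0 := by simp [sesq]

theorem sesq_zero_right (v : A) : X.sesq v 0 = 0 := by simp [sesq]

theorem sesq_sum_left {ι : Type*} (s : Finset ι) (f : ι → A) (w : A) :
    X.sesq (∑ i ∈ s, f i) w = ∑ i ∈ s, X.sesq (f i) w := by
  simp only [sesq, map_sum, Finset.sum_mul]

theorem sesq_sum_right {ι : Type*} (s : Finset ι) (v : A) (f : ι → A) :
    X.sesq v (∑ i ∈ s, f i) = ∑ i ∈ s, X.sesq v (f i) := by
  simp only [sesq, map_sum, Finset.mul_sum]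

/-- the form pairs `H p q` with `H (n - q) (n - p)` only -/
theorem sesq_of_mem {p q p' q' : ℕ} {v w : A} (hv : v ∈ X.H p q) (hw : w ∈ X.H p' q')
    (h : (p + q', q + p') ≠ (n, n)) : X.sesq v w = 0 := by
  rw [sesq, X.dual_of_mem hv, smul_mul_assoc, map_smul,
    X.int_off _ _ _ (X.mul_mem _ _ _ _ _ _ hv (X.conj_mem _ _ _ hw)) h, smul_zero]

theorem omega_central (a : A) : a * X.omega = X.omega * a := X.comm_of_mem X.omega_mem a

theorem omega_pow_central (k : ℕ) (a : A) : a * X.omega ^ k = X.omega ^ k * a :=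
  X.comm_pow_of_mem X.omega_mem k a

theorem omega_pow_succ_eq_zero : X.omega ^ (n + 1) = 0 := X.pow_succ_eq_zero X.omega_mem

theorem omega_pow_eq_zero {k : ℕ} (h : n < k) : X.omega ^ k = 0 := by
  rw [show k = (k - (n + 1)) + (n + 1) by omega, pow_add, X.omega_pow_succ_eq_zero, mul_zero]

theorem dual_omega_pow (j : ℕ) (v : A) :
    X.dual (X.omega ^ j * v) = (-1 : ℂ) ^ j • (X.omega ^ j * X.dual v) := by
  induction j with
  | zero => simp
  | succ j ih =>
    rw [pow_succ', mul_assoc, X.dual_mul X.omega_mem, ih, mul_smul_comm, pow_succ, mul_assoc,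
      mul_neg_one, neg_smul]

theorem conj_omega_pow (j : ℕ) (v : A) : X.conj (X.omega ^ j * v) = X.omega ^ j * X.conj v := by
  rw [map_mul, map_pow, X.omega_real]

/-- `L = omega` is skew for the form -/
theorem sesq_omega_pow (j : ℕ) (v w : A) :
    X.sesq (X.omega ^ j * v) w = (-1) ^ j * X.sesq v (X.omega ^ j * w) := by
  rw [sesq, sesq, X.dual_omega_pow, smul_mul_assoc, map_smul, smul_eq_mul, X.conj_omega_pow,
    ← mul_assoc, X.omega_pow_central]

/-- the truncated exponential `exp (z omega)` -/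
noncomputable def expo (z : ℂ) : A :=
  ∑ j ∈ Finset.range (n + 1), (z ^ j * ((j.factorial : ℕ) : ℂ)⁻¹) • X.omega ^ j

/-- more terms do not matter -/
theorem expo_eq {N : ℕ} (hN : n < N) (z : ℂ) :
    X.expo z = ∑ j ∈ Finset.range N, (z ^ j * ((j.factorial : ℕ) : ℂ)⁻¹) • X.omega ^ j := by
  unfold expo
  refine Finset.sum_subset (Finset.range_subset_range.2 (by omega)) fun j _ hj => ?_
  rw [Finset.mem_range, not_lt] at hj
  rw [X.omega_pow_eq_zero (by omega), smul_zero]

theorem expo_mul (s t : ℂ) : X.expo s * X.expo t = X.expo (s + t) := by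
  let _inst : Module ℚ A := Module.compHom A (algebraMap ℚ ℂ)
  have hq : ∀ (r : ℚ) (a : A), r • a = (r : ℂ) • a := fun r a => rfl
  have hz : ∀ u : ℂ, (u • X.omega) ^ (n + 1) = 0 := fun u => by
    rw [_root_.smul_pow, X.omega_pow_succ_eq_zero, smul_zero]
  have key : ∀ u : ℂ, X.expo u = IsNilpotent.exp (u • X.omega) := by
    intro u
    rw [IsNilpotent.exp_eq_sum (hz u)]
    unfold expo
    refine Finset.sum_congr rfl fun j _ => ?_
    rw [hq, _root_.smul_pow, smul_smul]
    congr 1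
    push_cast
    ring
  rw [key, key, key, add_smul]
  refine (IsNilpotent.exp_add_of_commute ?_ ⟨n + 1, hz s⟩ ⟨n + 1, hz t⟩).symm
  exact ((Commute.refl X.omega).smul_left s).smul_right t

theorem expo_zero : X.expo 0 = 1 := by
  unfold expo
  rw [Finset.sum_eq_single 0]
  · simp
  · intro j _ hj
    rw [zero_pow hj, zero_mul, zero_smul]
  · intro h
    simp at h

theorem expo_neg_mul (z : ℂ) (v : A) : X.expo (-z) * (X.expo z * v) = v := by
  rw [← mul_assoc, X.expo_mul, neg_add_cancel, X.expo_zero, one_mul]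

theorem expo_mul_neg (z : ℂ) (v : A) : X.expo z * (X.expo (-z) * v) = v := by
  rw [← mul_assoc, X.expo_mul, add_neg_cancel, X.expo_zero, one_mul]

theorem expo_central (z : ℂ) (v : A) : v * X.expo z = X.expo z * v := by
  unfold expo
  rw [Finset.mul_sum, Finset.sum_mul]
  refine Finset.sum_congr rfl fun j _ => ?_
  rw [mul_smul_comm, smul_mul_assoc, X.omega_pow_central]

theorem dual_expo (z : ℂ) (v : A) : X.dual (X.expo z * v) = X.expo (-z) * X.dual v := by
  unfold expo
  rw [Finset.sum_mul, Finset.sum_mul, map_sum]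
  refine Finset.sum_congr rfl fun j _ => ?_
  rw [smul_mul_assoc, map_smul, X.dual_omega_pow, smul_smul, smul_mul_assoc, neg_pow z j]
  congr 1
  ring

theorem conj_expo (z : ℂ) : X.conj (X.expo z) = X.expo ((starRingEnd ℂ) z) := by
  unfold expo
  rw [map_sum]
  refine Finset.sum_congr rfl fun j _ => ?_
  rw [X.conj_smul, map_pow, X.omega_real]
  congr 1
  simp

theorem conj_expo_mul (z : ℂ) (v : A) :
    X.conj (X.expo z * v) = X.expo ((starRingEnd ℂ) z) * X.conj v := by
  rw [map_mul, X.conj_expo]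

theorem sesq_expo (z : ℂ) (v w : A) :
    X.sesq (X.expo z * v) w = X.sesq v (X.expo (-(starRingEnd ℂ) z) * w) := by
  rw [sesq, sesq, X.dual_expo, X.conj_expo_mul, map_neg, Complex.conj_conj, ← mul_assoc,
    X.expo_central]

theorem sesq_expo_I (v w : A) : X.sesq (X.expo I * v) w = X.sesq v (X.expo I * w) := by
  rw [X.sesq_expo, Complex.conj_I, neg_neg]

theorem sesq_expo_neg_I (v w : A) :
    X.sesq (X.expo (-I) * v) w = X.sesq v (X.expo (-I) * w) := by
  rw [X.sesq_expo, map_neg, Complex.conj_I, neg_neg]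

theorem sesq_expo_I_neg_I (v w : A) :
    X.sesq (X.expo I * v) (X.expo (-I) * w) = X.sesq v w := by
  rw [X.sesq_expo_I, X.expo_mul_neg]

theorem sesq_expo_neg_I_I (v w : A) :
    X.sesq (X.expo (-I) * v) (X.expo I * w) = X.sesq v w := by
  rw [X.sesq_expo_neg_I, X.expo_neg_mul]

/-- the part of degree at most `d` -/
def low (d : ℤ) : Submodule ℂ A :=
  ⨆ (x : ℕ × ℕ) (_ : (x.1 : ℤ) + (x.2 : ℤ) ≤ d), X.H x.1 x.2

theorem mem_low {d : ℤ} {p q : ℕ} (h : (p : ℤ) + (q : ℤ) ≤ d) {v : A} (hv : v ∈ X.H p q) :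
    v ∈ X.low d :=
  le_iSup₂ (f := fun (x : ℕ × ℕ) (_ : (x.1 : ℤ) + (x.2 : ℤ) ≤ d) => X.H x.1 x.2) (p, q) h hv

theorem low_mono {d e : ℤ} (h : d ≤ e) : X.low d ≤ X.low e := by
  refine iSup₂_le fun x hx => ?_
  exact le_iSup₂ (f := fun (x : ℕ × ℕ) (_ : (x.1 : ℤ) + (x.2 : ℤ) ≤ e) => X.H x.1 x.2) x
    (hx.trans h)

/-- induction for `low` -/
theorem low_induct {d : ℤ} {P : A → Prop}
    (h : ∀ p q : ℕ, (p : ℤ) + (q : ℤ) ≤ d → ∀ a ∈ X.H p q, P a) (h0 : P 0)
    (hadd : ∀ a b, P a → P b → P (a + b)) {a : A} (ha : a ∈ X.low d) : P a := by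
  have ha' : a ∈ ⨆ x : {x : ℕ × ℕ // (x.1 : ℤ) + (x.2 : ℤ) ≤ d}, X.H x.1.1 x.1.2 := by
    rw [iSup_subtype]
    exact ha
  induction ha' using Submodule.iSup_induction' with
  | mem x b hb => exact h _ _ x.2 b hb
  | zero => exact h0
  | add b c hb' hc' hb hc =>
    have e : (⨆ x : {x : ℕ × ℕ // (x.1 : ℤ) + (x.2 : ℤ) ≤ d}, X.H x.1.1 x.1.2) = X.low d := by
      rw [iSup_subtype]
      rfl
    exact hadd b c (hb (e ▸ hb')) (hc (e ▸ hc'))

theorem column_induct {i : ℤ} {P : A → Prop}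
    (h : ∀ p q : ℕ, (p : ℤ) - (q : ℤ) = i → ∀ a ∈ X.H p q, P a) (h0 : P 0)
    (hadd : ∀ a b, P a → P b → P (a + b)) {a : A} (ha : a ∈ X.column i) : P a := by
  have ha' : a ∈ ⨆ x : {x : ℕ × ℕ // (x.1 : ℤ) - (x.2 : ℤ) = i}, X.H x.1.1 x.1.2 := by
    rw [iSup_subtype]
    exact ha
  induction ha' using Submodule.iSup_induction' with
  | mem x b hb => exact h _ _ x.2 b hb
  | zero => exact h0
  | add b c hb' hc' hb hc =>
    have e : (⨆ x : {x : ℕ × ℕ // (x.1 : ℤ) - (x.2 : ℤ) = i}, X.H x.1.1 x.1.2) = X.column i := by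
      rw [iSup_subtype]
      rfl
    exact hadd b c (hb (e ▸ hb')) (hc (e ▸ hc'))

theorem mem_column {i : ℤ} {p q : ℕ} (h : (p : ℤ) - (q : ℤ) = i) {v : A} (hv : v ∈ X.H p q) :
    v ∈ X.column i :=
  le_iSup₂ (f := fun (x : ℕ × ℕ) (_ : (x.1 : ℤ) - (x.2 : ℤ) = i) => X.H x.1 x.2) (p, q) h hv

/-- small degrees are orthogonal -/
theorem sesq_low {d e : ℤ} (h : d + e < 2 * n) {v w : A} (hv : v ∈ X.low d)
    (hw : w ∈ X.low e) : X.sesq v w = 0 := by
  refine X.low_induct (P := fun v => X.sesq v w = 0) (fun p q hpq v hv => ?_)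
    (X.sesq_zero_left w) (fun a b ha hb => by rw [X.sesq_add_left, ha, hb, add_zero]) hv
  refine X.low_induct (P := fun w => X.sesq v w = 0) (fun p' q' hpq' w hw => ?_)
    (X.sesq_zero_right v) (fun a b ha hb => by rw [X.sesq_add_right, ha, hb, add_zero]) hw
  refine X.sesq_of_mem hv hw fun h' => ?_
  simp only [Prod.mk.injEq] at h'
  omega

/-- different columns are orthogonal -/
theorem sesq_column {i j : ℤ} (h : i ≠ j) {v w : A} (hv : v ∈ X.column i)
    (hw : w ∈ X.column j) : X.sesq v w = 0 := by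
  refine X.column_induct (P := fun v => X.sesq v w = 0) (fun p q hpq v hv => ?_)
    (X.sesq_zero_left w) (fun a b ha hb => by rw [X.sesq_add_left, ha, hb, add_zero]) hv
  refine X.column_induct (P := fun w => X.sesq v w = 0) (fun p' q' hpq' w hw => ?_)
    (X.sesq_zero_right v) (fun a b ha hb => by rw [X.sesq_add_right, ha, hb, add_zero]) hw
  refine X.sesq_of_mem hv hw fun h' => ?_
  simp only [Prod.mk.injEq] at h'
  omega

/-- nondegeneracy -/
theorem sesq_nondeg {v : A} (h : ∀ w, X.sesq v w = 0) : v = 0 := by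
  have h1 : X.dual v = 0 := X.poincare _ fun b => by
    have := h (X.conj b)
    rwa [sesq, X.conj_conj] at this
  rw [← X.dual_dual v, h1]
  simp

/-- the unit lies in `H 0 0` -/
theorem one_mem : (1 : A) ∈ X.H 0 0 := by
  classical
  have h1 : (1 : A) ∈ ⨆ x : ℕ × ℕ, X.H x.1 x.2 := by rw [X.iSup_H]; trivial
  obtain ⟨f, hf, hsum⟩ := (Submodule.mem_iSup_iff_exists_finsupp _ _).1 h1
  have hsum' : ∑ i ∈ f.support, f i = 1 := hsum
  -- the component of degree zero is a left unit
  have key : ∀ a : A, f (0, 0) * a = a := by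
    refine X.induct (P := fun a => f (0, 0) * a = a) (fun p q a ha => ?_) (by simp)
      (fun a b ha hb => by rw [mul_add, ha, hb])
    -- `a = ∑ f i * a`
    have e1 : a = ∑ i ∈ insert (0, 0) f.support, f i * a := by
      rw [← Finset.sum_mul]
      have e2 : ∑ i ∈ insert (0, 0) f.support, f i = 1 := by
        rw [← hsum']
        refine (Finset.sum_subset (Finset.subset_insert _ _) fun i _ hi => ?_).symm
        simpa using hi
      rw [e2, one_mul]
    rw [← Finset.add_sum_erase _ _ (Finset.mem_insert_self (0, 0) f.support)] at e1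
    have hsub : f (0, 0) * a - a ∈ X.H p q := by
      refine Submodule.sub_mem _ ?_ ha
      have := X.mul_mem 0 0 p q _ _ (hf (0, 0)) ha
      rwa [zero_add, zero_add] at this
    have hsub2 : f (0, 0) * a - a ∈ ⨆ x ∈ {x : ℕ × ℕ | x ≠ (p, q)}, X.H x.1 x.2 := by
      have e3 : f (0, 0) * a - a =
          -∑ i ∈ (insert (0, 0) f.support).erase (0, 0), f i * a := by
        nth_rewrite 2 [e1]
        abel
      rw [e3]
      refine Submodule.neg_mem _ (Submodule.sum_mem _ fun i hi => ?_)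
      rw [Finset.mem_erase] at hi
      have h3 := X.mul_mem i.1 i.2 p q _ _ (hf i) ha
      refine le_iSup₂ (f := fun (x : ℕ × ℕ) (_ : x ∈ {x : ℕ × ℕ | x ≠ (p, q)}) => X.H x.1 x.2)
        (i.1 + p, i.2 + q) ?_ h3
      intro h4
      simp only [Prod.mk.injEq] at h4
      exact hi.1 (Prod.ext (by simpa using h4.1) (by simpa using h4.2))
    have hd := X.indep (p, q)
    have := (Submodule.disjoint_def.1 hd) _ hsub hsub2
    rwa [sub_eq_zero] at this
  have h2 := key 1
  rw [mul_one] at h2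
  rw [← h2]
  exact hf (0, 0)

end HodgeRing

end Pool.Agent.Hodge81
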