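import Pool.Agent.Helper28.HT.Kernel

/-!
# Comparison of `h^{0,1}` and `h^{0,2}`
-/

set_option autoImplicit false

namespace Pool.Agent.Hodge81

open Complex Module

variable {n : ℕ} {A B : Type*} [Ring A] [Algebra ℂ A] [Ring B] [Algebra ℂ B]
  {X : HodgeRing n A} {Y : HodgeRing n B} {P : PolyvectorAction X} {Q : PolyvectorAction Y}
  {phi : A ≃ₗ[ℂ] B}

namespace IsHochschildIso

theorem symm (h : IsHochschildIso P Q phi) : IsHochschildIso Q P phi.symm := by
  refine ⟨fun b => ?_, fun k g => ?_⟩
  · rw [LinearEquiv.symm_apply_eq, h.conj, LinearEquiv.apply_symm_apply]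
  · rw [h.total k]
    have e : phi.toLinearMap ∘ₗ (phi.symm.toLinearMap ∘ₗ g ∘ₗ phi.symm.symm.toLinearMap) ∘ₗ
        phi.symm.toLinearMap = g := by
      ext b
      simp
    rw [e]

/-- the transport of an operator -/
noncomputable def transport (phi : A ≃ₗ[ℂ] B) (f : Module.End ℂ A) : Module.End ℂ B :=
  phi.toLinearMap ∘ₗ f ∘ₗ phi.symm.toLinearMap

theorem transport_apply (phi : A ≃ₗ[ℂ] B) (f : Module.End ℂ A) (b : B) :
    transport phi f b = phi (f (phi.symm b)) := rfl

theorem bar_transport (h : IsHochschildIso P Q phi) (f : Module.End ℂ A) :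
    Y.bar (transport phi f) = transport phi (X.bar f) := by
  ext b
  rw [HodgeRing.bar_apply, transport_apply, transport_apply, HodgeRing.bar_apply, ← h.conj,
    h.symm.conj]

theorem transport_mem (h : IsHochschildIso P Q phi) {k : ℕ} {x : A} (hx : x ∈ X.H 0 k) :
    transport phi (LinearMap.mulLeft ℂ x) ∈ Q.total k :=
  (h.total k _).1 (P.mem_total (a := k) (b := 0) rfl ((P.functions k _).2 ⟨x, hx, rfl⟩))

theorem bar_mulLeft (X : HodgeRing n A) (x : A) :
    X.bar (LinearMap.mulLeft ℂ x) = LinearMap.mulLeft ℂ (X.conj x) := by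
  ext v
  rw [HodgeRing.bar_apply, LinearMap.mulLeft_apply, LinearMap.mulLeft_apply, map_mul,
    X.conj_conj]

/-- multiplication by `x` in `H^{0,k}` commutes with its conjugate up to the sign `(-1)^k` -/
theorem transport_comm (h : IsHochschildIso P Q phi) {k : ℕ} {x : A} (hx : x ∈ X.H 0 k) (b : B) :
    transport phi (LinearMap.mulLeft ℂ x) (Y.bar (transport phi (LinearMap.mulLeft ℂ x)) b) =
      (-1 : ℂ) ^ (k * k) •
        Y.bar (transport phi (LinearMap.mulLeft ℂ x)) (transport phi (LinearMap.mulLeft ℂ x) b) := by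
  rw [h.bar_transport, bar_mulLeft]
  simp only [transport_apply, LinearEquiv.symm_apply_apply, LinearMap.mulLeft_apply]
  rw [← mul_assoc, ← mul_assoc, X.comm 0 k k 0 x (X.conj x) hx (X.conj_mem _ _ _ hx),
    smul_mul_assoc, map_smul, zero_add, add_zero]

theorem eq_zero_of_transport {x : A} (h0 : transport phi (LinearMap.mulLeft ℂ x) = 0) :
    x = 0 := by
  have h1 := congrArg (fun g : Module.End ℂ B => g (phi 1)) h0
  simp only [transport_apply, LinearEquiv.symm_apply_apply, LinearMap.mulLeft_apply, mul_one,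
    LinearMap.zero_apply] at h1
  exact phi.map_eq_zero_iff.1 h1

/-- a subspace on which the evaluation at `exp (i omega)` is injective -/
theorem finrank_le [FiniteDimensional ℂ B] (h : IsHochschildIso P Q phi) {k : ℕ}
    (S : Submodule ℂ A) (hS : S ≤ X.H 0 k)
    (hinj : ∀ x ∈ S, transport phi (LinearMap.mulLeft ℂ x) (Y.expo I) = 0 → x = 0) :
    finrank ℂ S ≤ Y.h 0 k := by
  let Θ : S →ₗ[ℂ] B :=
    { toFun := fun x => transport phi (LinearMap.mulLeft ℂ (x : A)) (Y.expo I)
      map_add' := fun x y => by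
        simp only [transport_apply, LinearMap.mulLeft_apply, Submodule.coe_add, add_mul, map_add]
      map_smul' := fun z x => by
        simp only [transport_apply, LinearMap.mulLeft_apply, Submodule.coe_smul, smul_mul_assoc,
          map_smul, RingHom.id_apply] }
  have hΘ : Function.Injective Θ := by
    rw [injective_iff_map_eq_zero]
    rintro ⟨x, hx⟩ h0
    exact Subtype.ext (hinj x hx h0)
  have h1 := LinearMap.finrank_range_of_inj hΘ
  have h2 : LinearMap.range Θ ≤ (Y.H 0 k).map (LinearMap.mulRight ℂ (Y.expo I)) := by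
    rintro _ ⟨x, rfl⟩
    obtain ⟨y, hy, he⟩ := Q.exists_eval (h.transport_mem (hS x.2)) I
    exact ⟨y, hy, he.symm⟩
  rw [← h1]
  exact (Submodule.finrank_mono h2).trans (Submodule.finrank_map_le _ _)

theorem h_le_one [FiniteDimensional ℂ B] (h : IsHochschildIso P Q phi) : X.h 0 1 ≤ Y.h 0 1 := by
  refine h.finrank_le (X.H 0 1) le_rfl fun x hx h0 => ?_
  refine eq_zero_of_transport (phi := phi) (Q.ker_one (h.transport_mem hx) (fun v => ?_) h0)
  rw [h.transport_comm hx]
  norm_num

theorem h_le_two [FiniteDimensional ℂ B] (hY : Y.Polarized) (h : IsHochschildIso P Q phi) :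
    X.h 0 2 ≤ Y.h 0 2 := by
  refine h.finrank_le (X.H 0 2) le_rfl fun x hx h0 => ?_
  refine eq_zero_of_transport (phi := phi) (Q.ker_two_of hY (h.transport_mem hx) (fun v => ?_) h0)
  rw [h.transport_comm hx]
  norm_num

end IsHochschildIso

end Pool.Agent.Hodge81
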