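import Pool.Agent.Helper28.HT.Action

/-!
# Polyvector fields: evaluation on exponentials and adjoints
-/

set_option autoImplicit false

namespace Pool.Agent.Hodge81

open Complex Module

namespace PolyvectorAction

variable {n : ℕ} {A : Type*} [Ring A] [Algebra ℂ A] {X : HodgeRing n A} (P : PolyvectorAction X)

theorem mem_total {a b k : ℕ} (h : a + b = k) {f : Module.End ℂ A} (hf : f ∈ P.T a b) :
    f ∈ P.total k :=
  le_iSup₂ (f := fun (x : ℕ × ℕ) (_ : x.1 + x.2 = k) => P.T x.1 x.2) (a, b) h hf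

theorem total_induct {k : ℕ} {Q : Module.End ℂ A → Prop}
    (h : ∀ a b : ℕ, a + b = k → ∀ f ∈ P.T a b, Q f) (h0 : Q 0)
    (hadd : ∀ f g, Q f → Q g → Q (f + g)) {f : Module.End ℂ A} (hf : f ∈ P.total k) : Q f := by
  have hf' : f ∈ ⨆ x : {x : ℕ × ℕ // x.1 + x.2 = k}, P.T x.1.1 x.1.2 := by
    rw [iSup_subtype]
    exact hf
  induction hf' using Submodule.iSup_induction' with
  | mem x b hb => exact h _ _ x.2 b hb
  | zero => exact h0
  | add b c hb' hc' hb hc =>
    have e : (⨆ x : {x : ℕ × ℕ // x.1 + x.2 = k}, P.T x.1.1 x.1.2) = P.total k := by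
      rw [iSup_subtype]
      rfl
    exact hadd b c (hb (e ▸ hb')) (hc (e ▸ hc'))

theorem exists_one {f : Module.End ℂ A} (hf : f ∈ P.total 1) :
    ∃ f0 ∈ P.T 1 0, ∃ f1 ∈ P.T 0 1, f = f0 + f1 := by
  refine P.total_induct (Q := fun f => ∃ f0 ∈ P.T 1 0, ∃ f1 ∈ P.T 0 1, f = f0 + f1)
    (fun a b hab f hf => ?_) ⟨0, zero_mem _, 0, zero_mem _, by simp⟩ ?_ hf
  · obtain ⟨rfl, rfl⟩ | ⟨rfl, rfl⟩ : (a = 1 ∧ b = 0) ∨ (a = 0 ∧ b = 1) := by omega
    · exact ⟨f, hf, 0, zero_mem _, by simp⟩
    · exact ⟨0, zero_mem _, f, hf, by simp⟩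
  · rintro f g ⟨f0, h0, f1, h1, rfl⟩ ⟨g0, k0, g1, k1, rfl⟩
    exact ⟨f0 + g0, add_mem h0 k0, f1 + g1, add_mem h1 k1, by abel⟩

theorem exists_two {f : Module.End ℂ A} (hf : f ∈ P.total 2) :
    ∃ f0 ∈ P.T 2 0, ∃ f1 ∈ P.T 1 1, ∃ f2 ∈ P.T 0 2, f = f0 + f1 + f2 := by
  refine P.total_induct (Q := fun f => ∃ f0 ∈ P.T 2 0, ∃ f1 ∈ P.T 1 1, ∃ f2 ∈ P.T 0 2,
    f = f0 + f1 + f2) (fun a b hab f hf => ?_)
    ⟨0, zero_mem _, 0, zero_mem _, 0, zero_mem _, by simp⟩ ?_ hf
  · obtain ⟨rfl, rfl⟩ | ⟨rfl, rfl⟩ | ⟨rfl, rfl⟩ :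
      (a = 2 ∧ b = 0) ∨ (a = 1 ∧ b = 1) ∨ (a = 0 ∧ b = 2) := by omega
    · exact ⟨f, hf, 0, zero_mem _, 0, zero_mem _, by simp⟩
    · exact ⟨0, zero_mem _, f, hf, 0, zero_mem _, by simp⟩
    · exact ⟨0, zero_mem _, 0, zero_mem _, f, hf, by simp⟩
  · rintro f g ⟨f0, h0, f1, h1, f2, h2, rfl⟩ ⟨g0, k0, g1, k1, g2, k2, rfl⟩
    exact ⟨f0 + g0, add_mem h0 k0, f1 + g1, add_mem h1 k1, f2 + g2, add_mem h2 k2, by abel⟩

/-- the commutator with `omega` -/
noncomputable def delta (X : HodgeRing n A) (f : Module.End ℂ A) : Module.End ℂ A :=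
  f * LinearMap.mulLeft ℂ X.omega - LinearMap.mulLeft ℂ X.omega * f

theorem delta_apply (f : Module.End ℂ A) (v : A) :
    delta X f v = f (X.omega * v) - X.omega * f v := rfl

theorem apply_omega (f : Module.End ℂ A) (v : A) :
    f (X.omega * v) = X.omega * f v + delta X f v := by
  rw [delta_apply]; abel

theorem delta_mem {a b : ℕ} {f : Module.End ℂ A} (hf : f ∈ P.T a (b + 1)) :
    delta X f ∈ P.T (a + 1) b := P.contract a b f X.omega hf X.omega_mem

theorem delta_functions {a : ℕ} {f : Module.End ℂ A} (hf : f ∈ P.T a 0) : delta X f = 0 := by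
  obtain ⟨x, -, rfl⟩ := (P.functions a f).1 hf
  ext v
  rw [delta_apply, LinearMap.mulLeft_apply, LinearMap.mulLeft_apply, LinearMap.zero_apply,
    ← mul_assoc, ← mul_assoc, X.omega_central, sub_self]

/-- evaluation on powers of `omega` -/
theorem eval_pow (b : ℕ) : ∀ (a : ℕ) (f : Module.End ℂ A), f ∈ P.T a b →
    ∃ x ∈ X.H 0 (a + b), ∀ j : ℕ,
      f (X.omega ^ j) = ((j.choose b : ℕ) : ℂ) • (X.omega ^ (j - b) * x) := by
  induction b with
  | zero =>
    intro a f hf
    obtain ⟨x, hx, rfl⟩ := (P.functions a f).1 hf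
    refine ⟨x, hx, fun j => ?_⟩
    rw [LinearMap.mulLeft_apply, X.omega_pow_central, Nat.choose_zero_right, Nat.cast_one,
      one_smul, Nat.sub_zero]
  | succ b ih =>
    intro a f hf
    obtain ⟨x, hx, hj⟩ := ih (a + 1) (delta X f) (P.delta_mem hf)
    refine ⟨x, by rwa [show a + (b + 1) = a + 1 + b by ring], fun j => ?_⟩
    induction j with
    | zero =>
      rw [pow_zero, P.vanish a (b + 1) 0 0 f 1 hf (by omega) X.one_mem]
      simp
    | succ j ihj =>
      rw [pow_succ', apply_omega, ihj, hj, mul_smul_comm, Nat.choose_succ_succ' j b,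
        Nat.add_sub_add_right]
      have e : ((j.choose (b + 1) : ℕ) : ℂ) • (X.omega * (X.omega ^ (j - (b + 1)) * x)) =
          ((j.choose (b + 1) : ℕ) : ℂ) • (X.omega ^ (j - b) * x) := by
        rcases Nat.lt_or_ge j (b + 1) with h | h
        · rw [Nat.choose_eq_zero_of_lt h]
          simp
        · rw [← mul_assoc, ← pow_succ', show j - (b + 1) + 1 = j - b by omega]
      rw [e, ← add_smul]
      push_cast
      congr 1
      ring

/-- evaluation on the exponentials, homogeneous version -/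
theorem eval_expo {a b : ℕ} {f : Module.End ℂ A} (hf : f ∈ P.T a b) :
    ∃ x ∈ X.H 0 (a + b), ∀ z : ℂ,
      f (X.expo z) = (z ^ b / ((b.factorial : ℕ) : ℂ)) • (X.expo z * x) := by
  obtain ⟨x, hx, hj⟩ := P.eval_pow b a f hf
  refine ⟨x, hx, fun z => ?_⟩
  have hL : f (X.expo z) = ∑ j ∈ Finset.range (b + (n + 1)),
      f ((z ^ j * ((j.factorial : ℕ) : ℂ)⁻¹) • X.omega ^ j) := by
    rw [X.expo_eq (N := b + (n + 1)) (by omega), map_sum]
  rw [hL, Finset.sum_range_add, Finset.sum_eq_zero, zero_add]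
  · unfold HodgeRing.expo
    rw [Finset.sum_mul, Finset.smul_sum]
    refine Finset.sum_congr rfl fun i _ => ?_
    rw [map_smul, hj, smul_smul, Nat.add_sub_cancel_left, smul_mul_assoc, smul_smul]
    congr 1
    have h1 : ((i.factorial : ℕ) : ℂ) ≠ 0 := Nat.cast_ne_zero.2 (Nat.factorial_ne_zero i)
    have h2 : ((b.factorial : ℕ) : ℂ) ≠ 0 := Nat.cast_ne_zero.2 (Nat.factorial_ne_zero b)
    have h3 : (((b + i).factorial : ℕ) : ℂ) ≠ 0 :=
      Nat.cast_ne_zero.2 (Nat.factorial_ne_zero (b + i))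
    have h4 : (((b + i).choose b : ℕ) : ℂ) * ((b.factorial : ℕ) : ℂ) * ((i.factorial : ℕ) : ℂ) =
        (((b + i).factorial : ℕ) : ℂ) := by
      have h5 := Nat.add_choose_mul_factorial_mul_factorial i b
      rw [add_comm i b] at h5
      have h6 : (b + i).choose b * b.factorial * i.factorial = (b + i).factorial := by
        rw [← h5]
        ring
      exact_mod_cast h6
    rw [pow_add]
    field_simp
    rw [← h4]
    ring
  · intro i hi
    rw [Finset.mem_range] at hi
    rw [map_smul, hj, Nat.choose_eq_zero_of_lt hi, Nat.cast_zero, zero_smul, smul_zero]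

/-- evaluation on the exponentials -/
theorem exists_eval {k : ℕ} {f : Module.End ℂ A} (hf : f ∈ P.total k) (z : ℂ) :
    ∃ x ∈ X.H 0 k, f (X.expo z) = x * X.expo z := by
  refine P.total_induct (Q := fun f => ∃ x ∈ X.H 0 k, f (X.expo z) = x * X.expo z)
    (fun a b hab f hf => ?_) ⟨0, zero_mem _, by simp⟩ ?_ hf
  · obtain ⟨x, hx, h⟩ := P.eval_expo hf
    refine ⟨(z ^ b / ((b.factorial : ℕ) : ℂ)) • x, Submodule.smul_mem _ _ (hab ▸ hx), ?_⟩
    rw [h, smul_mul_assoc, X.expo_central]
  · rintro f g ⟨x, hx, h⟩ ⟨y, hy, h'⟩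
    exact ⟨x + y, add_mem hx hy, by rw [LinearMap.add_apply, h, h', add_mul]⟩

/-- the adjoint of a contraction, homogeneous version -/
theorem sesq_adj {k : ℕ} {f : Module.End ℂ A} (hf : f ∈ P.total k) {p q : ℕ} {v : A}
    (hv : v ∈ X.H p q) (w : A) :
    X.sesq (f v) w = I ^ k * (-1) ^ (k * (p + q)) * X.sesq v (X.bar f w) ∧
    X.sesq (X.bar f v) w = I ^ k * (-1) ^ (k * (p + q)) * X.sesq v (f w) := by
  refine P.total_induct (Q := fun f => X.sesq (f v) w = I ^ k * (-1) ^ (k * (p + q)) *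
    X.sesq v (X.bar f w) ∧ X.sesq (X.bar f v) w = I ^ k * (-1) ^ (k * (p + q)) *
    X.sesq v (f w)) (fun a b hab g hg => ?_) ?_ ?_ hf
  · subst hab
    have hcv := X.conj_mem _ _ _ hv
    have hpow : ∀ c d : ℕ, I ^ (a + c) * (-1) ^ ((a + b) * d + b) =
        I ^ (a + b) * (-1) ^ ((a + b) * d) * I ^ (c + b) := by
      intro c d
      rw [pow_add (-1 : ℂ), show (-1 : ℂ) ^ b = I ^ b * I ^ b by rw [← mul_pow, I_mul_I],
        pow_add I a b, pow_add I a c, pow_add I c b]
      ring
    constructor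
    · rcases Nat.lt_or_ge p b with hlt | hge
      · rw [P.vanish a b p q g v hg hlt hv, X.sesq_zero_left]
        have h1 : X.sesq v (X.bar g w) = 0 := by
          rw [HodgeRing.sesq, X.bar_apply, X.conj_conj, X.dual_of_mem hv, smul_mul_assoc,
            map_smul]
          have h2 := P.adjoint a b p q g v (X.conj w) hg hv
          rw [P.vanish a b p q g v hg hlt hv, zero_mul, map_zero] at h2
          have h3 : X.int (v * g (X.conj w)) = 0 := by
            rcases mul_eq_zero.1 h2.symm with h | h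
            · exact absurd h (pow_ne_zero _ (by norm_num))
            · exact h
          rw [h3, smul_zero]
        rw [h1, mul_zero]
      · obtain ⟨c, rfl⟩ : ∃ c, p = c + b := ⟨p - b, by omega⟩
        rw [HodgeRing.sesq, HodgeRing.sesq, X.bar_apply, X.conj_conj, X.dual_of_mem hv,
          X.dual_of_mem (P.degree a b c q g v hg hv), smul_mul_assoc, map_smul, smul_eq_mul,
          P.adjoint a b _ q g v (X.conj w) hg hv, smul_mul_assoc, map_smul, smul_eq_mul]
        have h1 := hpow (c + q) (c + b + q)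
        rw [show a + (c + q) = c + (q + a) by ring, show c + q + b = c + b + q by ring] at h1
        rw [← mul_assoc, h1, ← mul_assoc]
    · rcases Nat.lt_or_ge q b with hlt | hge
      · have h0 : X.bar g v = 0 := by
          rw [X.bar_apply, P.vanish a b q p g _ hg hlt hcv, map_zero]
        rw [h0, X.sesq_zero_left]
        have h1 : X.sesq v (g w) = 0 := by
          rw [HodgeRing.sesq, X.dual_of_mem hv, smul_mul_assoc, map_smul]
          have h2 := P.adjoint a b q p g (X.conj v) w hg hcv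
          rw [P.vanish a b q p g _ hg hlt hcv, zero_mul, map_zero] at h2
          have h3 : X.int (X.conj v * g w) = 0 := by
            rcases mul_eq_zero.1 h2.symm with h | h
            · exact absurd h (pow_ne_zero _ (by norm_num))
            · exact h
          have h4 : X.int (v * X.conj (g w)) = 0 := by
            have h5 := X.int_conj (X.conj v * g w)
            rw [map_mul, X.conj_conj, h3, map_zero] at h5
            exact h5
          rw [h4, smul_zero]
        rw [h1, mul_zero]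
      · obtain ⟨c, rfl⟩ : ∃ c, q = c + b := ⟨q - b, by omega⟩
        have hb : X.bar g v ∈ X.H (p + a) c := X.conj_mem _ _ _ (P.degree a b c p g _ hg hcv)
        have h4 : X.int (X.bar g v * X.conj w) =
            (-1 : ℂ) ^ ((a + b) * (p + (c + b)) + b) * X.int (v * X.conj (g w)) := by
          have h5 := congrArg (starRingEnd ℂ) (P.adjoint a b _ p g (X.conj v) w hg hcv)
          rw [← X.int_conj, map_mul X.conj, map_mul (starRingEnd ℂ), ← X.int_conj,
            map_mul X.conj, X.conj_conj] at h5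
          rw [X.bar_apply, h5]
          congr 1
          simp only [map_pow, map_neg, map_one]
          congr 2
          ring
        rw [HodgeRing.sesq, HodgeRing.sesq, X.dual_of_mem hv, X.dual_of_mem hb, smul_mul_assoc,
          map_smul, smul_eq_mul, h4, smul_mul_assoc, map_smul, smul_eq_mul]
        have h1 := hpow (p + c) (p + (c + b))
        rw [show a + (p + c) = p + a + c by ring, show p + c + b = p + (c + b) by ring] at h1
        rw [← mul_assoc, h1, ← mul_assoc]
  · rw [X.bar_zero, LinearMap.zero_apply, LinearMap.zero_apply]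
    simp [HodgeRing.sesq]
  · rintro f g ⟨h1, h2⟩ ⟨h3, h4⟩
    rw [X.bar_add, LinearMap.add_apply, LinearMap.add_apply, LinearMap.add_apply,
      LinearMap.add_apply, X.sesq_add_left, X.sesq_add_left, X.sesq_add_right, X.sesq_add_right,
      h1, h2, h3, h4]
    constructor <;> ring

end PolyvectorAction

end Pool.Agent.Hodge81
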