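import Pool.Agent.Helper28.HT.Forms
import Pool.Agent.Helper81.HT.Polarized
import Pool.Agent.Helper81.HT.Coro
import Pool.Agent.Helper94.HT.Algebra
import Pool.Agent.Helper94.Hodge.FivefoldCriterion

/-!
# Derived invariance of holomorphic one- and two-forms: the final statement
-/

set_option autoImplicit false

namespace Pool.Agent.Hodge81

open Complex Module

section

variable {n : ℕ} {A : Type*} [Ring A] [Algebra ℂ A] {X : HodgeRing n A} (P : PolyvectorAction X)

theorem PolyvectorAction.eval : Eval P := fun _ _ hf => P.exists_eval hf I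

variable [FiniteDimensional ℂ A]

theorem PolyvectorAction.kerOne : KerOne P := fun _ hf hc h0 => P.ker_one hf hc h0

theorem PolyvectorAction.kerTwo : KerTwo P := fun _ hf hc h0 =>
  P.ker_two_of X.polarized hf hc h0

end

variable {n : ℕ} {A B : Type*} [Ring A] [Algebra ℂ A] [FiniteDimensional ℂ A]
  [Ring B] [Algebra ℂ B] [FiniteDimensional ℂ B]

open Pool.Agent.Helper94.Hodge.FivefoldCriterion (chi twiceC1C)

omit [FiniteDimensional ℂ A] in
theorem twiceC1C_eq (X : HodgeRing n A) : twiceC1C X = X.chernNumber := by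
  unfold twiceC1C chi HodgeRing.chernNumber
  refine Finset.sum_congr rfl fun p _ => ?_
  rw [Finset.mul_sum]
  refine Finset.sum_congr rfl fun q _ => ?_
  rw [pow_add]
  ring

theorem forms_main (X : HodgeRing n A) (Y : HodgeRing n B) (P : PolyvectorAction X)
    (Q : PolyvectorAction Y) (phi : A ≃ₗ[ℂ] B) (hphi : IsHochschildIso P Q phi) :
    X.h 0 1 = Y.h 0 1 ∧ X.h 0 2 = Y.h 0 2 ∧
    (∀ k, finrank ℂ (X.genPart k) = finrank ℂ (Y.genPart k)) ∧
    (IsMukaiIsometry X Y phi →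
      ((∃ k, n ≤ k + 1 ∧ X.genPart k ≠ ⊥) → ∀ q, X.h 0 q = Y.h 0 q) ∧
      (n ≤ 4 → ∀ p q, X.h p q = Y.h p q) ∧
      (n = 5 → (∀ p q, p ≠ q → X.h p q = Y.h p q) ∧
        (X.chernNumber = Y.chernNumber → ∀ p q, X.h p q = Y.h p q))) := by
  have h1 : X.h 0 1 = Y.h 0 1 :=
    h_eq hphi P.eval P.kerOne P.kerTwo Q.eval Q.kerOne Q.kerTwo (Or.inl rfl)
  have h2 : X.h 0 2 = Y.h 0 2 :=
    h_eq hphi P.eval P.kerOne P.kerTwo Q.eval Q.kerOne Q.kerTwo (Or.inr rfl)
  refine ⟨h1, h2, lowPart_finrank hphi P.eval P.kerOne P.kerTwo Q.eval Q.kerOne Q.kerTwo,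
    fun hM => ⟨?_, fun hn => hM.coro_four hn h1 h2, fun hn => ?_⟩⟩
  · rintro ⟨k, hk, hne⟩
    exact h_eq_of_lowPart hphi hM P.eval P.kerOne P.kerTwo Q.eval Q.kerOne Q.kerTwo hk hne
  · subst hn
    have hoff := hM.coro_five h1 h2
    refine ⟨hoff, fun hc => (Pool.Agent.Helper94.Hodge.FivefoldCriterion.result X Y phi hM).2
      ⟨hoff 1 0 (by decide), ?_, by rw [twiceC1C_eq, twiceC1C_eq, hc]⟩⟩
    have h00 : X.h 0 0 = Y.h 0 0 := by
      unfold HodgeRing.h
      rw [X.connected, Y.connected]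
    unfold chi
    refine Finset.sum_congr rfl fun q _ => ?_
    rcases Nat.eq_zero_or_pos q with hq | hq
    · rw [hq, h00]
    · rw [hoff 0 q (by omega)]

end Pool.Agent.Hodge81
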