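import Pool.Agent.Helper28.HT.Defs

/-!
# The algebra generated by holomorphic one- and two-forms, and a Chern number
-/

set_option autoImplicit false

namespace Pool.Agent.Hodge81

namespace HodgeRing

variable {n : ℕ} {A : Type*} [Ring A] [Algebra ℂ A] (X : HodgeRing n A)

/-- the subalgebra of `H^*(X, O_X)` generated by `H^{0,1}` and `H^{0,2}` -/
def genAlg : Subalgebra ℂ A := Algebra.adjoin ℂ ((X.H 0 1 : Set A) ∪ (X.H 0 2 : Set A))

/-- its part in `H^{0,k}` -/
def genPart (k : ℕ) : Submodule ℂ A := Subalgebra.toSubmodule X.genAlg ⊓ X.H 0 k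

/-- twice the Chern number `∫ c₁ c_{n-1}`, by the theorem of Libgober and Wood -/
noncomputable def chernNumber : ℤ :=
  ∑ p ∈ Finset.range (n + 1), ∑ q ∈ Finset.range (n + 1),
    (-1) ^ (p + q) * (3 * (2 * (p : ℤ) - n) ^ 2 - n) * (X.h p q : ℤ)

end HodgeRing

end Pool.Agent.Hodge81
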