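import Pool.Agent.Helper28.HT.Step

/-!
# Kernel of the evaluation at `exp (i omega)`: degree two
-/

set_option autoImplicit false

namespace Pool.Agent.Hodge81

open Complex Module

namespace HodgeRing

variable {n : ℕ} {A : Type*} [Ring A] [Algebra ℂ A] (X : HodgeRing n A)

/-- the orthogonal decomposition of the cohomology defined by `(D, H')` -/
def Polarized : Prop :=
  ∃ W : ℤ → ℤ → Submodule ℂ A, (⨆ x : ℤ × ℤ, W x.1 x.2) = ⊤ ∧
    (∀ r s, W r s ≤ X.column r) ∧
    (∀ r s, ∀ v ∈ W r s, X.expo (-I) * v ∈ X.low (n - s) ∧ X.expo I * v ∈ X.low (n + s)) ∧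
    (∀ r s, ∀ v ∈ W r s, X.sesq v v = 0 → v = 0)

/-- orthogonality of the twisted filtrations -/
theorem sesq_twisted {r s r' s' : ℤ} (h : (r, s) ≠ (r', s')) {u v : A}
    (hu : u ∈ X.column r) (hu1 : X.expo (-I) * u ∈ X.low (n - s))
    (hu2 : X.expo I * u ∈ X.low (n + s)) (hv : v ∈ X.column r')
    (hv1 : X.expo (-I) * v ∈ X.low (n - s')) (hv2 : X.expo I * v ∈ X.low (n + s')) :
    X.sesq u v = 0 := by
  by_cases hr : r = r'
  · have hs : s ≠ s' := fun hs => h (by rw [hr, hs])
    rcases lt_or_gt_of_ne hs with hlt | hgt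
    · have e : X.sesq u v = X.sesq (X.expo I * u) (X.expo (-I) * v) := by
        rw [X.sesq_expo_I_neg_I]
      rw [e]
      exact X.sesq_low (by omega) hu2 hv1
    · have e : X.sesq u v = X.sesq (X.expo (-I) * u) (X.expo I * v) := by
        rw [X.sesq_expo_neg_I_I]
      rw [e]
      exact X.sesq_low (by omega) hu1 hv2
  · exact X.sesq_column hr hu hv

/-- a vector in the right column and in both twisted filtrations lies in `W r s` -/
theorem mem_of_twisted {W : ℤ → ℤ → Submodule ℂ A} (hW1 : (⨆ x : ℤ × ℤ, W x.1 x.2) = ⊤)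
    (hW2 : ∀ r s, W r s ≤ X.column r)
    (hW3 : ∀ r s, ∀ v ∈ W r s, X.expo (-I) * v ∈ X.low (n - s) ∧ X.expo I * v ∈ X.low (n + s))
    (hW4 : ∀ r s, ∀ v ∈ W r s, X.sesq v v = 0 → v = 0) {r s : ℤ} {v : A}
    (hv : v ∈ X.column r) (hv1 : X.expo (-I) * v ∈ X.low (n - s))
    (hv2 : X.expo I * v ∈ X.low (n + s)) : v ∈ W r s := by
  classical
  have h1 : v ∈ ⨆ x : ℤ × ℤ, W x.1 x.2 := by rw [hW1]; trivial
  obtain ⟨f, hf, hsum⟩ := (Submodule.mem_iSup_iff_exists_finsupp _ _).1 h1
  have hsum' : ∑ i ∈ f.support, f i = v := hsum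
  have hz : ∀ i : ℤ × ℤ, i ≠ (r, s) → f i = 0 := by
    intro i hi
    refine hW4 _ _ _ (hf i) ?_
    have e1 : X.sesq (f i) v = 0 :=
      X.sesq_twisted (r := i.1) (s := i.2) (r' := r) (s' := s) hi (hW2 _ _ (hf i))
        (hW3 _ _ _ (hf i)).1 (hW3 _ _ _ (hf i)).2 hv hv1 hv2
    rw [← hsum', X.sesq_sum_right] at e1
    by_cases his : i ∈ f.support
    · rw [Finset.sum_eq_single_of_mem i his] at e1
      · exact e1
      · intro j _ hji
        exact X.sesq_twisted (r := i.1) (s := i.2) (r' := j.1) (s' := j.2) (fun h => hji h.symm)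
          (hW2 _ _ (hf i)) (hW3 _ _ _ (hf i)).1 (hW3 _ _ _ (hf i)).2
          (hW2 _ _ (hf j)) (hW3 _ _ _ (hf j)).1 (hW3 _ _ _ (hf j)).2
    · rw [Finsupp.notMem_support_iff.1 his, X.sesq_zero_left]
  have h2 : v = f (r, s) := by
    rw [← hsum']
    by_cases hrs : (r, s) ∈ f.support
    · rw [Finset.sum_eq_single_of_mem (r, s) hrs fun j _ hj => hz j hj]
    · rw [Finset.sum_eq_zero fun j hj => hz j fun h => hrs (h ▸ hj)]
      exact (Finsupp.notMem_support_iff.1 hrs).symm
  rw [h2]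
  exact hf (r, s)

end HodgeRing

namespace PolyvectorAction

variable {n : ℕ} {A : Type*} [Ring A] [Algebra ℂ A] {X : HodgeRing n A} (P : PolyvectorAction X)

theorem eval_one {a : ℕ} {f : Module.End ℂ A} (hf : f ∈ P.T a 1) :
    ∃ x ∈ X.H 0 (a + 1), delta X f = LinearMap.mulLeft ℂ x ∧
      ∀ (z : ℂ) (v : A), f (X.expo z * v) = X.expo z * (f v + z • (x * v)) := by
  obtain ⟨x, hx, hd⟩ := (P.functions (a + 1) (delta X f)).1 (P.delta_mem hf)
  refine ⟨x, hx, hd, fun z v => ?_⟩
  have h := X.expo_two_step (g := f) (h := delta X f) (l := 0) (fun v => apply_omega f v)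
    (fun v => by
      rw [LinearMap.zero_apply, add_zero, hd, LinearMap.mulLeft_apply, LinearMap.mulLeft_apply,
        ← mul_assoc, ← mul_assoc, X.omega_central]) (fun v => by simp) z v
  rw [h, hd, LinearMap.mulLeft_apply, LinearMap.zero_apply, smul_zero, add_zero]

theorem eval_two {a : ℕ} {f : Module.End ℂ A} (hf : f ∈ P.T a 2) :
    ∃ x ∈ X.H 0 (a + 2), delta X (delta X f) = LinearMap.mulLeft ℂ x ∧
      ∀ (z : ℂ) (v : A), f (X.expo z * v) =
        X.expo z * (f v + z • delta X f v + (z ^ 2 / 2) • (x * v)) := by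
  have hf' : delta X f ∈ P.T (a + 1) 1 := P.delta_mem hf
  obtain ⟨x, hx, hd⟩ := (P.functions (a + 1 + 1) (delta X (delta X f))).1 (P.delta_mem hf')
  refine ⟨x, hx, hd, fun z v => ?_⟩
  have h := X.expo_two_step (g := f) (h := delta X f) (l := delta X (delta X f))
    (fun v => apply_omega f v) (fun v => apply_omega _ v) (fun v => by
      rw [hd, LinearMap.mulLeft_apply, LinearMap.mulLeft_apply, ← mul_assoc, ← mul_assoc,
        X.omega_central]) z v
  rw [h, hd, LinearMap.mulLeft_apply]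

/-- contraction preserves or lowers the degree when `a ≤ b` -/
theorem map_low {a b : ℕ} (hab : a ≤ b) {f : Module.End ℂ A} (hf : f ∈ P.T a b) {d : ℤ} {v : A}
    (hv : v ∈ X.low d) : f v ∈ X.low d := by
  refine X.low_induct (P := fun v => f v ∈ X.low d) (fun p q hpq v hv => ?_)
    (by rw [map_zero]; exact zero_mem _)
    (fun a b ha hb => by rw [map_add]; exact add_mem ha hb) hv
  rcases Nat.lt_or_ge p b with hlt | hge
  · rw [P.vanish a b p q f v hf hlt hv]
    exact zero_mem _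
  · obtain ⟨c, rfl⟩ : ∃ c, p = c + b := ⟨p - b, by omega⟩
    exact X.mem_low (by push_cast at hpq ⊢; omega) (P.degree a b c q f v hf hv)

/-- contraction shifts the columns -/
theorem map_column {k : ℕ} {f : Module.End ℂ A} (hf : f ∈ P.total k) {i : ℤ} {v : A}
    (hv : v ∈ X.column i) : f v ∈ X.column (i - k) ∧ X.bar f v ∈ X.column (i + k) := by
  have key : ∀ (i : ℤ) (v : A), v ∈ X.column i → f v ∈ X.column (i - k) := by
    intro i v hv
    refine P.total_induct (Q := fun f => f v ∈ X.column (i - k)) (fun a b hab f hf => ?_)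
      (by rw [LinearMap.zero_apply]; exact zero_mem _)
      (fun f g hf hg => by rw [LinearMap.add_apply]; exact add_mem hf hg) hf
    refine X.column_induct (P := fun v => f v ∈ X.column (i - k)) (fun p q hpq v hv => ?_)
      (by rw [map_zero]; exact zero_mem _)
      (fun a b ha hb => by rw [map_add]; exact add_mem ha hb) hv
    rcases Nat.lt_or_ge p b with hlt | hge
    · rw [P.vanish a b p q f v hf hlt hv]
      exact zero_mem _
    · obtain ⟨c, rfl⟩ : ∃ c, p = c + b := ⟨p - b, by omega⟩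
      exact X.mem_column (by push_cast at hpq ⊢; omega) (P.degree a b c q f v hf hv)
  refine ⟨key i v hv, ?_⟩
  have h1 := X.conj_column (key (-i) _ (X.conj_column hv))
  rw [X.bar_apply]
  rwa [show -(-i - (k : ℤ)) = i + k by ring] at h1

/-- the form and an element of degree two -/
theorem sesq_adj_two {f : Module.End ℂ A} (hf : f ∈ P.total 2) (v w : A) :
    X.sesq (f v) w = -X.sesq v (X.bar f w) ∧ X.sesq (X.bar f v) w = -X.sesq v (f w) := by
  refine X.induct (P := fun v => X.sesq (f v) w = -X.sesq v (X.bar f w) ∧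
    X.sesq (X.bar f v) w = -X.sesq v (f w)) (fun p q v hv => ?_) ?_ ?_ v
  · have h := P.sesq_adj hf hv w
    rw [show (-1 : ℂ) ^ (2 * (p + q)) = 1 by rw [pow_mul]; norm_num, I_sq] at h
    rw [h.1, h.2]
    constructor <;> ring
  · rw [map_zero, map_zero, X.sesq_zero_left, X.sesq_zero_left, X.sesq_zero_left, neg_zero]
    exact ⟨rfl, rfl⟩
  · rintro a b ⟨h1, h2⟩ ⟨h3, h4⟩
    rw [map_add, map_add, X.sesq_add_left, X.sesq_add_left, X.sesq_add_left, X.sesq_add_left,
      h1, h2, h3, h4]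
    constructor <;> ring

/-- the kernel in degree two -/
theorem ker_two_of (hpol : X.Polarized) {f : Module.End ℂ A} (hf : f ∈ P.total 2)
    (hc : ∀ v, f (X.bar f v) = X.bar f (f v)) (h0 : f (X.expo I) = 0) : f = 0 := by
  have hneg := P.expo_neg_eq_zero hf (c := 1) (fun v => by rw [hc, one_smul]) h0
  have hf' := hf
  obtain ⟨f0, hf0, f1, hf1, f2, hf2, hsum⟩ := P.exists_two hf'
  obtain ⟨x0, hx0, hm0⟩ := (P.functions 2 f0).1 hf0
  obtain ⟨x1, hx1, hd1, he1⟩ := P.eval_one hf1
  obtain ⟨x2, hx2, hd2, he2⟩ := P.eval_two hf2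
  have hd2' : delta X f2 ∈ P.T 1 1 := P.delta_mem hf2
  have key : ∀ (z : ℂ) (v : A), f (X.expo z * v) = X.expo z *
      ((x0 * v + z • (x1 * v) + (z ^ 2 / 2) • (x2 * v)) + (f1 v + f2 v + z • delta X f2 v)) := by
    intro z v
    have e0 : f0 (X.expo z * v) = X.expo z * (x0 * v) := by
      rw [hm0, LinearMap.mulLeft_apply, ← mul_assoc, ← mul_assoc, X.expo_central]
    rw [hsum, LinearMap.add_apply, LinearMap.add_apply, e0, he1, he2, ← mul_add, ← mul_add]
    congr 1
    abel
  have k1 : ∀ z : ℂ, f (X.expo z) = X.expo z * (x0 + z • x1 + (z ^ 2 / 2) • x2) := by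
    intro z
    have h1 := key z 1
    have e1 : f1 1 = 0 := P.vanish 1 1 0 0 f1 1 hf1 (by omega) X.one_mem
    have e2 : f2 1 = 0 := P.vanish 0 2 0 0 f2 1 hf2 (by omega) X.one_mem
    have e3 : delta X f2 1 = 0 := P.vanish 1 1 0 0 _ 1 hd2' (by omega) X.one_mem
    rw [e1, e2, e3] at h1
    simpa using h1
  rw [k1] at h0 hneg
  have e1 := X.expo_mul_eq_zero h0
  have e2 := X.expo_mul_eq_zero hneg
  have hx1' : x1 = 0 := by
    have : (2 * I) • x1 = 0 := by
      have h3 : (2 * I) • x1 = (x0 + I • x1 + (I ^ 2 / 2) • x2) -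
          (x0 + (-I) • x1 + ((-I) ^ 2 / 2) • x2) := by
        rw [two_mul, add_smul, neg_smul, neg_sq]
        abel
      rw [h3, e1, e2, sub_zero]
    exact (smul_eq_zero.1 this).resolve_left (mul_ne_zero two_ne_zero I_ne_zero)
  have hI : ∀ z : ℂ, z ^ 2 = -1 → ∀ v : A, x0 * v + z • (x1 * v) + (z ^ 2 / 2) • (x2 * v) = 0 := by
    intro z hz v
    have h3 : x0 + (I ^ 2 / 2) • x2 = 0 := by
      rwa [hx1', smul_zero, add_zero] at e1
    rw [I_sq] at h3
    rw [hx1', zero_mul, smul_zero, add_zero, hz, ← smul_mul_assoc, ← add_mul, h3, zero_mul]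
  -- `f` preserves the twisted filtrations
  have key2 : ∀ z : ℂ, z ^ 2 = -1 → ∀ v : A, f (X.expo z * v) =
      X.expo z * (f1 v + f2 v + z • delta X f2 v) := by
    intro z hz v
    rw [key, hI z hz v, zero_add]
  have hlow : ∀ (z : ℂ) (d : ℤ) (v : A), v ∈ X.low d →
      f1 v + f2 v + z • delta X f2 v ∈ X.low d := by
    intro z d v hv
    exact add_mem (add_mem (P.map_low le_rfl hf1 hv) (P.map_low (by omega) hf2 hv))
      (Submodule.smul_mem _ _ (P.map_low le_rfl hd2' hv))
  have hI2 : (I : ℂ) ^ 2 = -1 := I_sq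
  have hI2' : (-I : ℂ) ^ 2 = -1 := by rw [neg_sq, I_sq]
  have filt : ∀ (z : ℂ), z ^ 2 = -1 → ∀ (d : ℤ) (v : A), X.expo (-z) * v ∈ X.low d →
      X.expo (-z) * f v ∈ X.low d := by
    intro z hz d v hv
    have h3 : f v = X.expo z * (f1 (X.expo (-z) * v) + f2 (X.expo (-z) * v) +
        z • delta X f2 (X.expo (-z) * v)) := by
      rw [← key2 z hz, X.expo_mul_neg]
    rw [h3, X.expo_neg_mul]
    exact hlow z d _ hv
  have filtbar : ∀ (z : ℂ), z ^ 2 = -1 → (starRingEnd ℂ) z = -z → ∀ (d : ℤ) (v : A),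
      X.expo (-z) * v ∈ X.low d → X.expo (-z) * X.bar f v ∈ X.low d := by
    intro z hz hzc d v hv
    have h3 : X.expo z * X.conj v ∈ X.low d := by
      have := X.conj_low hv
      rwa [X.conj_expo_mul, map_neg, hzc, neg_neg] at this
    have h4 := filt (-z) (by rw [neg_sq, hz]) d (X.conj v) (by rwa [neg_neg])
    rw [neg_neg] at h4
    have h5 := X.conj_low h4
    rwa [X.conj_expo_mul, hzc] at h5
  obtain ⟨W, hW1, hW2, hW3, hW4⟩ := hpol
  have cI : (starRingEnd ℂ) I = -I := Complex.conj_I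
  have cI' : (starRingEnd ℂ) (-I) = -(-I) := by rw [map_neg, Complex.conj_I]
  have mapf : ∀ (r s : ℤ) (v : A), v ∈ W r s → f v ∈ W (r - 2) s := by
    intro r s v hv
    refine X.mem_of_twisted hW1 hW2 hW3 hW4 ?_ ?_ ?_
    · exact (P.map_column hf (hW2 r s hv)).1
    · exact filt I hI2 _ v (hW3 r s v hv).1
    · have := filt (-I) hI2' (n + s) v (by rw [neg_neg]; exact (hW3 r s v hv).2)
      rwa [neg_neg] at this
  have mapbar : ∀ (r s : ℤ) (v : A), v ∈ W r s → X.bar f v ∈ W (r + 2) s := by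
    intro r s v hv
    refine X.mem_of_twisted hW1 hW2 hW3 hW4 ?_ ?_ ?_
    · exact (P.map_column hf (hW2 r s hv)).2
    · exact filtbar I hI2 cI _ v (hW3 r s v hv).1
    · have := filtbar (-I) hI2' cI' (n + s) v (by rw [neg_neg]; exact (hW3 r s v hv).2)
      rwa [neg_neg] at this
  -- normal and nilpotent
  have main : ∀ (N : ℕ) (s : ℤ) (v : A), v ∈ W (-(n : ℤ) - 1 + N) s → f v = 0 := by
    intro N
    induction N using Nat.strong_induction_on with
    | _ N ih =>
      intro s v hv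
      rcases Nat.lt_or_ge N 2 with hN | hN
      · have h3 := (P.map_column hf (hW2 _ _ hv)).1
        rw [X.column_eq_bot (by push_cast; omega)] at h3
        exact (Submodule.mem_bot ℂ).1 h3
      · obtain ⟨M, rfl⟩ : ∃ M, N = M + 2 := ⟨N - 2, by omega⟩
        have hy : f v ∈ W (-(n : ℤ) - 1 + M) s := by
          have := mapf _ _ v hv
          rwa [show -(n : ℤ) - 1 + ((M + 2 : ℕ) : ℤ) - 2 = -(n : ℤ) - 1 + M by push_cast; ring]
            at this
        have hfy : f (f v) = 0 := ih M (by omega) s (f v) hy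
        have hby : X.bar f (f v) = 0 := by
          refine hW4 _ _ _ (mapbar _ _ _ hy) ?_
          rw [(P.sesq_adj_two hf _ _).2, hc, hfy, map_zero, X.sesq_zero_right, neg_zero]
        refine hW4 _ _ _ hy ?_
        rw [(P.sesq_adj_two hf _ _).1, hby, X.sesq_zero_right, neg_zero]
  have all : ∀ v : A, f v = 0 := by
    intro v
    have hv : v ∈ ⨆ x : ℤ × ℤ, W x.1 x.2 := by rw [hW1]; trivial
    induction hv using Submodule.iSup_induction' with
    | mem x v hv =>
      by_cases hx : x.1 < -(n : ℤ) - 1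
      · have h3 := hW2 _ _ hv
        rw [X.column_eq_bot (by omega)] at h3
        rw [(Submodule.mem_bot ℂ).1 h3, map_zero]
      · refine main (x.1 + n + 1).toNat x.2 v ?_
        rwa [show -(n : ℤ) - 1 + ((x.1 + n + 1).toNat : ℤ) = x.1 by omega]
    | zero => exact map_zero f
    | add b c _ _ hb hc => rw [map_add, hb, hc, add_zero]
  exact LinearMap.ext all

end PolyvectorAction

end Pool.Agent.Hodge81
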