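import Pool.Agent.Helper28.HT.Eval

/-!
# Kernel of the evaluation at `exp (i omega)`: first step, and degree one
-/

set_option autoImplicit false

namespace Pool.Agent.Hodge81

open Complex Module

namespace HodgeRing

variable {n : ℕ} {A : Type*} [Ring A] [Algebra ℂ A] (X : HodgeRing n A)

/-- positivity on `H^{0,k}` -/
theorem class_pos {k : ℕ} {x : A} (hx : x ∈ X.H 0 k)
    (h : X.sesq (x * X.expo (-I)) (x * X.expo (-I)) = 0) : x = 0 := by
  rcases Nat.lt_or_ge n k with hlt | hle
  · rw [X.bounded 0 k (Or.inr hlt)] at hx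
    simpa using hx
  by_contra h0
  have hprim : X.omega ^ (n - (0 + k) + 1) * x = 0 := by
    have h1 := X.pow_mem X.omega_mem hx (n - (0 + k) + 1)
    rw [X.bounded _ _ (Or.inr (by omega))] at h1
    simpa using h1
  obtain ⟨r, hr, he⟩ := X.hodgeRiemann 0 k x hx (by omega) hprim h0
  rw [zero_add] at he
  have hJ : X.int (X.omega ^ (n - k) * x * X.conj x) ≠ 0 := by
    intro hz
    rw [hz, mul_zero] at he
    have : r = 0 := by exact_mod_cast he.symm
    exact hr.ne' this
  rw [X.expo_central, X.sesq_expo_neg_I, ← mul_assoc, X.expo_mul] at h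
  have e1 : X.sesq x (X.expo (-I + -I) * x) = I ^ (0 + k) * X.int (X.expo (I + I) * x *
      X.conj x) := by
    rw [HodgeRing.sesq, X.dual_of_mem hx, X.conj_expo_mul, smul_mul_assoc, map_smul, smul_eq_mul,
      ← mul_assoc, X.expo_central]
    simp
  have e2 : X.int (X.expo (I + I) * x * X.conj x) =
      (I + I) ^ (n - k) * (((n - k).factorial : ℕ) : ℂ)⁻¹ *
        X.int (X.omega ^ (n - k) * x * X.conj x) := by
    unfold HodgeRing.expo
    rw [Finset.sum_mul, Finset.sum_mul, map_sum, Finset.sum_eq_single (n - k)]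
    · rw [smul_mul_assoc, smul_mul_assoc, map_smul, smul_eq_mul]
    · intro j _ hj
      rw [smul_mul_assoc, smul_mul_assoc, map_smul]
      have h1 := X.mul_mem _ _ _ _ _ _ (X.pow_mem X.omega_mem hx j) (X.conj_mem _ _ _ hx)
      rw [X.int_off _ _ _ h1 (fun h2 => by simp only [Prod.mk.injEq] at h2; omega), smul_zero]
    · intro h1
      rw [Finset.mem_range, not_lt] at h1
      omega
  rw [e1, e2] at h
  have hI2 : (I + I : ℂ) ≠ 0 := by
    rw [← two_mul]
    exact mul_ne_zero two_ne_zero I_ne_zero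
  have hfac : (((n - k).factorial : ℕ) : ℂ) ≠ 0 :=
    Nat.cast_ne_zero.2 (Nat.factorial_ne_zero _)
  refine (mul_ne_zero (pow_ne_zero _ I_ne_zero) (mul_ne_zero (mul_ne_zero (pow_ne_zero _ hI2)
    (inv_ne_zero hfac)) hJ)) h

/-- the even part of the cohomology -/
theorem expo_even_induct {Q : A → Prop}
    (h : ∀ p : ℕ, ∀ a ∈ X.H p p, Q a) (h0 : Q 0)
    (hadd : ∀ a b, Q a → Q b → Q (a + b)) (z : ℂ) : Q (X.expo z) := by
  unfold HodgeRing.expo
  have : ∀ s : Finset ℕ, Q (∑ j ∈ s, (z ^ j * ((j.factorial : ℕ) : ℂ)⁻¹) • X.omega ^ j) := by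
    classical
    intro s
    induction s using Finset.induction_on with
    | empty => simpa using h0
    | insert j s hj ih =>
      rw [Finset.sum_insert hj]
      refine hadd _ _ (h j _ (Submodule.smul_mem _ _ ?_)) ih
      have := X.pow_mem X.omega_mem X.one_mem j
      rwa [mul_one, zero_add] at this
  exact this _

variable [FiniteDimensional ℂ A]

/-- hard Lefschetz, surjectivity -/
theorem lefschetz_surj {p q : ℕ} (hpq : p + q ≤ n) {w : A} (hw : w ∈ X.H (n - q) (n - p)) :
    ∃ v ∈ X.H p q, X.omega ^ (n - (p + q)) * v = w := by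
  have hmap : (X.H p q).map (LinearMap.mulLeft ℂ (X.omega ^ (n - (p + q)))) =
      X.H (n - q) (n - p) := by
    apply Submodule.eq_of_le_of_finrank_eq
    · rintro _ ⟨y, hy, rfl⟩
      have := X.pow_mem X.omega_mem hy (n - (p + q))
      rwa [show p + (n - (p + q)) = n - q by omega, show q + (n - (p + q)) = n - p by omega]
        at this
    · have hinj : Function.Injective ((LinearMap.mulLeft ℂ
          (X.omega ^ (n - (p + q)))).domRestrict (X.H p q)) := by
        rw [injective_iff_map_eq_zero]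
        rintro ⟨y, hy⟩ h0
        apply Subtype.ext
        exact X.lefschetz hy hpq h0
      have h3 := LinearMap.finrank_range_of_inj hinj
      rw [LinearMap.range_domRestrict] at h3
      rw [h3]
      have h4 := X.h_serre (p := q) (q := p) (by omega) (by omega)
      have h5 := X.h_conj q p
      unfold HodgeRing.h at h4 h5
      rw [h4, h5]
  have hw' := hw
  rw [← hmap] at hw'
  obtain ⟨y, hy, rfl⟩ := hw'
  exact ⟨y, hy, rfl⟩

/-- a class in the lower half is a primitive class plus a multiple of `omega` -/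
theorem lefschetz_split {p q : ℕ} (hpq : p + q ≤ n) {v : A} (hv : v ∈ X.H p q) :
    ∃ a ∈ X.H p q, X.omega ^ (n - (p + q) + 1) * a = 0 ∧
      (v = a ∨ ∃ p' q', p = p' + 1 ∧ q = q' + 1 ∧ ∃ u ∈ X.H p' q', v = a + X.omega * u) := by
  have hwm := X.pow_mem X.omega_mem hv (n - (p + q) + 1)
  rcases Nat.eq_zero_or_pos p with hp | hp
  · refine ⟨v, hv, ?_, Or.inl rfl⟩
    rw [X.bounded _ _ (Or.inr (by omega))] at hwm
    simpa using hwm
  rcases Nat.eq_zero_or_pos q with hq | hq
  · refine ⟨v, hv, ?_, Or.inl rfl⟩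
    rw [X.bounded _ _ (Or.inl (by omega))] at hwm
    simpa using hwm
  obtain ⟨p', rfl⟩ : ∃ p', p = p' + 1 := ⟨p - 1, by omega⟩
  obtain ⟨q', rfl⟩ : ∃ q', q = q' + 1 := ⟨q - 1, by omega⟩
  rw [show p' + 1 + (n - (p' + 1 + (q' + 1)) + 1) = n - q' by omega,
    show q' + 1 + (n - (p' + 1 + (q' + 1)) + 1) = n - p' by omega] at hwm
  obtain ⟨u, hu, hue⟩ := X.lefschetz_surj (p := p') (q := q') (by omega) hwm
  have hou : X.omega * u ∈ X.H (p' + 1) (q' + 1) := by
    have := X.pow_mem X.omega_mem hu 1
    rwa [pow_one] at this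
  refine ⟨v - X.omega * u, Submodule.sub_mem _ hv hou, ?_, Or.inr ⟨p', q', rfl, rfl, u, hu, ?_⟩⟩
  · rw [mul_sub, ← hue, ← mul_assoc, ← pow_succ,
      show n - (p' + 1 + (q' + 1)) + 1 + 1 = n - (p' + q') by omega, sub_self]
  · abel

/-- an operator of bidegree `(-1, 0)` commuting with `omega` vanishes -/
theorem eq_zero_of_commute {g : Module.End ℂ A} (hg : ∀ v, g (X.omega * v) = X.omega * g v)
    (h0 : ∀ q, ∀ v ∈ X.H 0 q, g v = 0) (h1 : ∀ p q, ∀ v ∈ X.H (p + 1) q, g v ∈ X.H p q) :
    g = 0 := by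
  have hpow : ∀ (j : ℕ) (v : A), g (X.omega ^ j * v) = X.omega ^ j * g v := by
    intro j v
    induction j with
    | zero => simp
    | succ j ih => rw [pow_succ', mul_assoc, hg, ih, mul_assoc]
  have low : ∀ (q p : ℕ), p + q ≤ n → ∀ v ∈ X.H p q, g v = 0 := by
    intro q
    induction q with
    | zero =>
      intro p hpq v hv
      rcases Nat.eq_zero_or_pos p with hp | hp
      · subst hp
        exact h0 0 v hv
      · obtain ⟨p', rfl⟩ : ∃ p', p = p' + 1 := ⟨p - 1, by omega⟩
        refine X.lefschetz (h1 p' 0 v hv) (by omega) ?_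
        rw [← hpow]
        have := X.pow_mem X.omega_mem hv (n - (p' + 0))
        rw [X.bounded _ _ (Or.inl (by omega))] at this
        rw [(Submodule.mem_bot ℂ).1 this, map_zero]
    | succ q ih =>
      intro p hpq v hv
      rcases Nat.eq_zero_or_pos p with hp | hp
      · subst hp
        exact h0 _ v hv
      · obtain ⟨p', rfl⟩ : ∃ p', p = p' + 1 := ⟨p - 1, by omega⟩
        obtain ⟨a, ha, hprim, hcase⟩ := X.lefschetz_split hpq hv
        have hga : g a = 0 := by
          refine X.lefschetz (h1 p' (q + 1) a ha) (by omega) ?_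
          rw [← hpow, show n - (p' + (q + 1)) = n - (p' + 1 + (q + 1)) + 1 by omega, hprim,
            map_zero]
        rcases hcase with rfl | ⟨p'', q'', hp'', hq'', u, hu, rfl⟩
        · exact hga
        · obtain rfl : p' = p'' := by omega
          obtain rfl : q = q'' := by omega
          rw [map_add, hga, hg, ih p' (by omega) u hu, mul_zero, add_zero]
  have all : ∀ v, g v = 0 := by
    refine X.induct (P := fun v => g v = 0) (fun p q v hv => ?_) (map_zero g)
      (fun a b ha hb => by rw [map_add, ha, hb, add_zero])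
    by_cases hb : n < p ∨ n < q
    · rw [X.bounded p q hb] at hv
      rw [(Submodule.mem_bot ℂ).1 hv, map_zero]
    · rcases Nat.lt_or_ge n (p + q) with hlt | hge
      · obtain ⟨u, hu, rfl⟩ := X.lefschetz_surj (p := n - q) (q := n - p) (by omega) (w := v)
          (by rwa [show n - (n - p) = p by omega, show n - (n - q) = q by omega])
        rw [hpow, low (n - p) (n - q) (by omega) u hu, mul_zero]
      · exact low q p hge v hv
  exact LinearMap.ext all

end HodgeRing

namespace PolyvectorAction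

variable {n : ℕ} {A : Type*} [Ring A] [Algebra ℂ A] {X : HodgeRing n A} (P : PolyvectorAction X)

/-- an element of degree `k` which commutes with its conjugate up to a scalar and kills
`exp (i omega)` kills `exp (- i omega)` -/
theorem expo_neg_eq_zero {k : ℕ} {f : Module.End ℂ A} (hf : f ∈ P.total k) {c : ℂ}
    (hc : ∀ v, X.bar f (f v) = c • f (X.bar f v)) (h0 : f (X.expo I) = 0) :
    f (X.expo (-I)) = 0 := by
  obtain ⟨x, hx, hxe⟩ := P.exists_eval hf (-I)
  have h1 : X.bar f (X.expo (-I)) = 0 := by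
    rw [X.bar_apply, X.conj_expo, map_neg, Complex.conj_I, neg_neg, h0, map_zero]
  have h2 : X.sesq (f (X.expo (-I))) (f (X.expo (-I))) =
      I ^ k * X.sesq (X.expo (-I)) (X.bar f (f (X.expo (-I)))) := by
    refine X.expo_even_induct (Q := fun v => X.sesq (f v) (f (X.expo (-I))) =
      I ^ k * X.sesq v (X.bar f (f (X.expo (-I))))) (fun p a ha => ?_) ?_ ?_ (-I)
    · rw [(P.sesq_adj hf ha _).1, show k * (p + p) = 2 * (k * p) by ring, pow_mul]
      norm_num
    · rw [map_zero, X.sesq_zero_left, X.sesq_zero_left, mul_zero]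
    · intro a b ha hb
      rw [map_add, X.sesq_add_left, X.sesq_add_left, ha, hb, mul_add]
  rw [hc, h1, map_zero, smul_zero, X.sesq_zero_right, mul_zero, hxe] at h2
  rw [hxe, X.class_pos hx h2, zero_mul]

variable [FiniteDimensional ℂ A]

/-- the kernel in degree one -/
theorem ker_one {f : Module.End ℂ A} (hf : f ∈ P.total 1)
    (hc : ∀ v, f (X.bar f v) = -X.bar f (f v)) (h0 : f (X.expo I) = 0) : f = 0 := by
  have hneg := P.expo_neg_eq_zero hf (c := -1) (fun v => by rw [hc]; simp) h0
  obtain ⟨f0, hf0, f1, hf1, rfl⟩ := P.exists_one hf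
  obtain ⟨x0, hx0, he0⟩ := P.eval_expo hf0
  obtain ⟨x1, hx1, he1⟩ := P.eval_expo hf1
  have key : ∀ z : ℂ, (f0 + f1) (X.expo z) = X.expo z * (x0 + z • x1) := by
    intro z
    rw [LinearMap.add_apply, he0, he1]
    simp [mul_add]
  rw [key] at h0 hneg
  have e1 := X.expo_mul_eq_zero h0
  have e2 := X.expo_mul_eq_zero hneg
  have hx1' : x1 = 0 := by
    have : (2 * I) • x1 = 0 := by
      have h3 : (2 * I) • x1 = (x0 + I • x1) - (x0 + (-I) • x1) := by
        rw [two_mul, add_smul, neg_smul]
        abel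
      rw [h3, e1, e2, sub_zero]
    exact (smul_eq_zero.1 this).resolve_left (mul_ne_zero two_ne_zero I_ne_zero)
  have hx0' : x0 = 0 := by rwa [hx1', smul_zero, add_zero] at e1
  -- `f0` is the multiplication by `x0`
  obtain ⟨y, -, rfl⟩ := (P.functions 1 f0).1 hf0
  have hy : y = 0 := by
    have := he0 0
    rw [LinearMap.mulLeft_apply, X.expo_zero, hx0', mul_zero, smul_zero, mul_one] at this
    exact this
  obtain ⟨y1, -, hd⟩ := (P.functions 1 (delta X f1)).1 (P.delta_mem hf1)
  have hy1 : y1 = 0 := by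
    have h3 := congrArg (fun g : Module.End ℂ A => g 1) hd
    simp only [LinearMap.mulLeft_apply, mul_one] at h3
    obtain ⟨x, -, hj⟩ := P.eval_pow 1 0 f1 hf1
    have h4 := he1 1
    -- evaluate `f1` on `exp` via powers
    have h5 : x = 0 := by
      have h6 : ∀ z : ℂ, f1 (X.expo z) = z • (X.expo z * x) := by
        intro z
        have hL : f1 (X.expo z) = ∑ j ∈ Finset.range (1 + (n + 1)),
            f1 ((z ^ j * ((j.factorial : ℕ) : ℂ)⁻¹) • X.omega ^ j) := by
          rw [X.expo_eq (N := 1 + (n + 1)) (by omega), map_sum]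
        rw [hL, Finset.sum_range_add, Finset.sum_eq_zero, zero_add]
        · unfold HodgeRing.expo
          rw [Finset.sum_mul, Finset.smul_sum]
          refine Finset.sum_congr rfl fun i _ => ?_
          rw [map_smul, hj, smul_smul, Nat.add_sub_cancel_left, smul_mul_assoc, smul_smul]
          congr 1
          rw [Nat.choose_one_right, add_comm 1 i, Nat.factorial_succ]
          have h7 : ((i + 1 : ℕ) : ℂ) ≠ 0 := Nat.cast_ne_zero.2 (Nat.succ_ne_zero i)
          have h8 : ((i.factorial : ℕ) : ℂ) ≠ 0 := Nat.cast_ne_zero.2 (Nat.factorial_ne_zero i)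
          push_cast at h7 ⊢
          field_simp
          ring
        · intro i hi
          rw [Finset.mem_range] at hi
          rw [map_smul, hj, Nat.choose_eq_zero_of_lt hi, Nat.cast_zero, zero_smul, smul_zero]
      have h7 := h6 1
      rw [h4, hx1', mul_zero, smul_zero, one_smul] at h7
      exact X.expo_mul_eq_zero h7.symm
    rw [← h3, delta_apply, mul_one]
    have h8 := hj 1
    have h9 := hj 0
    rw [pow_one, h5, mul_zero, smul_zero] at h8
    rw [pow_zero, h5, mul_zero, smul_zero] at h9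
    rw [h8, h9, mul_zero, sub_zero]
  have hf1' : f1 = 0 := by
    refine X.eq_zero_of_commute (fun v => ?_) (fun q v hv => ?_) (fun p q v hv => ?_)
    · rw [apply_omega, hd, hy1]
      simp
    · exact P.vanish 0 1 0 q f1 v hf1 (by omega) hv
    · exact P.degree 0 1 p q f1 v hf1 hv
  rw [hf1', hy]
  ext v
  simp

end PolyvectorAction

end Pool.Agent.Hodge81
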